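import Mathlib
import Pool.Agent.Helper11.Can.Defs

/-! CAN-L1: Fischer pairing of generic determinants with products of coordinates -/

universe u

open Finset MvPolynomial

namespace Pool.Agent.Helper11.Can

open Pool.Agent.Helper10.GIT Pool.Agent.Helper11.GIT

variable {P : ℕ} {d : Fin P → ℕ}

namespace L1

lemma ite_gv {R : Type*} [CommRing R] (c c' : Fin P) (a b : Fin (d c)) (a' b' : Fin (d c')) :
    (if (⟨c, (a, b)⟩ : GV d) = ⟨c', (a', b')⟩ then (1 : R) else 0) =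
      (if (⟨c, a⟩ : Let d) = ⟨c', a'⟩ then 1 else 0) *
        (if (⟨c', b'⟩ : Let d) = ⟨c, b⟩ then 1 else 0) := by
  by_cases hc : c = c'
  · subst hc
    by_cases ha : a = a'
    · subst ha
      by_cases hb : b = b'
      · subst hb
        simp
      · simp [hb, Ne.symm hb]
    · simp [ha]
  · have h1 : (⟨c, (a, b)⟩ : GV d) ≠ ⟨c', (a', b')⟩ := fun h => hc (congrArg Sigma.fst h)
    have h2 : (⟨c, a⟩ : Let d) ≠ ⟨c', a'⟩ := fun h => hc (congrArg Sigma.fst h)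
    rw [if_neg h1, if_neg h2, zero_mul]

lemma eps'_eq {R : Type*} [CommRing R] (c : Fin P) (l : Fin (d c) → Let d) :
    (eps' c l : R) = ∑ π : Equiv.Perm (Fin (d c)), ((Equiv.Perm.sign π : ℤ) : R) *
      ∏ i, (if l i = ⟨c, π i⟩ then 1 else 0) := by
  unfold eps'
  rw [← Matrix.det_transpose, Matrix.det_apply']
  refine sum_congr rfl fun π _ => ?_
  congr 1

variable {Ω : Type u} [Field Ω]

lemma genDet_eq (e : Fin P → ℕ) :
    genDet d Ω e = ∑ G : (∀ s : (Σ t : Fin P, Fin (e t)), Equiv.Perm (Fin (d s.1))),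
      (∏ s, ((Equiv.Perm.sign (G s) : ℤ) : Ω)) •
        ∏ p : (Σ s : (Σ t : Fin P, Fin (e t)), Fin (d s.1)),
          X ⟨p.1.1, (p.2, G p.1 p.2)⟩ := by
  have h1 : genDet d Ω e = ∏ s : (Σ t : Fin P, Fin (e t)), (gen d Ω s.1).det := by
    rw [Fintype.prod_sigma, genDet]
    refine prod_congr rfl fun t _ => ?_
    change _ = ∏ _y : Fin (e t), (gen d Ω t).det
    rw [prod_const, card_univ, Fintype.card_fin]
  rw [h1, prod_congr rfl fun s _ => det_gen_eq s.1, prod_univ_sum, Fintype.piFinset_univ]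
  refine sum_congr rfl fun G _ => ?_
  rw [prod_smul]
  congr 1
  exact (Fintype.prod_sigma fun p : (Σ s : (Σ t : Fin P, Fin (e t)), Fin (d s.1)) =>
    (X ⟨p.1.1, (p.2, G p.1 p.2)⟩ : MvPolynomial (GV d) Ω)).symm

open Classical in
lemma cf_prod_eq {I : Type} [Fintype I] (χ : I → Shape P) (z : ∀ r, Ten d Ω (χ r))
    (w : ∀ r, Word d (χ r)) :
    ∏ r, cf (z r) (w r) = ∑ W : ∀ r, Word d (χ r), (∏ r, z r (W r)) •
      ∏ q : Pos χ, X ⟨(χ q.1).2 q.2, (w q.1 q.2, W q.1 q.2)⟩ := by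
  have h1 : ∀ r, cf (z r) (w r) = ∑ w' : Word d (χ r), z r w' •
      ∏ i, X ⟨(χ r).2 i, (w r i, w' i)⟩ := by
    intro r
    unfold cf
    rw [act_apply]
    refine sum_congr rfl fun w' _ => ?_
    rw [smul_eq_C_mul, mul_comm]
    rfl
  rw [prod_congr rfl fun r _ => h1 r, prod_univ_sum, Fintype.piFinset_univ]
  refine sum_congr rfl fun W _ => ?_
  rw [prod_smul, Fintype.prod_sigma]

end L1

/-- CAN-L1 -/
theorem fis_genDet_cf {Ω : Type u} [Field Ω] [CharZero Ω] {A N : Family d Ω} (hD : DZero A N)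
    (e : Fin P → ℕ) {I : Type} [Fintype I] (χ : I → Shape P) (z : ∀ r, Ten d Ω (χ r))
    (hz : ∀ r, z r ∈ A (χ r)) (hN : ∃ r, z r ∈ N (χ r)) (w : ∀ r, Word d (χ r)) :
    fis (genDet d Ω e) (∏ r, cf (z r) (w r)) = 0 := by
  classical
  rw [L1.genDet_eq, L1.cf_prod_eq]
  simp only [map_sum, LinearMap.sum_apply, map_smul, LinearMap.smul_apply, smul_eq_mul,
    fis_prod_X]
  have hswap : ∀ (F : (∀ s : (Σ t : Fin P, Fin (e t)), Equiv.Perm (Fin (d s.1))) →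
      (∀ r, Word d (χ r)) → ((Σ s : (Σ t : Fin P, Fin (e t)), Fin (d s.1)) ≃ Pos χ) → Ω)
      (a : (∀ s : (Σ t : Fin P, Fin (e t)), Equiv.Perm (Fin (d s.1))) → Ω)
      (b : (∀ r, Word d (χ r)) → Ω),
      (∀ τ, ∑ W, b W * ∑ G, a G * F G W τ = 0) →
      ∑ W, b W * ∑ G, a G * ∑ τ, F G W τ = 0 := by
    intro F a b h
    have : ∑ W, b W * ∑ G, a G * ∑ τ, F G W τ = ∑ τ, ∑ W, b W * ∑ G, a G * F G W τ := by
      rw [sum_comm]
      refine sum_congr rfl fun W _ => ?_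
      rw [← mul_sum]
      congr 1
      rw [sum_comm]
      exact sum_congr rfl fun G _ => mul_sum _ _ _
    rw [this]
    exact sum_eq_zero fun τ _ => h τ
  refine hswap (fun G W τ => ∏ p, if (⟨p.1.1, (p.2, (G p.1) p.2)⟩ : GV d) =
    ⟨(χ (τ p).1).2 (τ p).2, (w (τ p).1 (τ p).2, W (τ p).1 (τ p).2)⟩ then 1 else 0)
    (fun G => ∏ s, ((Equiv.Perm.sign (G s) : ℤ) : Ω)) (fun W => ∏ r, z r (W r)) fun τ => ?_
  have h1 : ∀ W : ∀ r, Word d (χ r),
      ∑ G : (∀ s : (Σ t : Fin P, Fin (e t)), Equiv.Perm (Fin (d s.1))),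
        (∏ s, ((Equiv.Perm.sign (G s) : ℤ) : Ω)) *
          ∏ p, (if (⟨p.1.1, (p.2, (G p.1) p.2)⟩ : GV d) =
            ⟨(χ (τ p).1).2 (τ p).2, (w (τ p).1 (τ p).2, W (τ p).1 (τ p).2)⟩
              then (1 : Ω) else 0) =
      (∏ p : (Σ s : (Σ t : Fin P, Fin (e t)), Fin (d s.1)),
        (if (⟨p.1.1, p.2⟩ : Let d) = ltp w (τ p) then (1 : Ω) else 0)) *
        ∏ s : (Σ t : Fin P, Fin (e t)), eps' s.1 (fun i => ltp W (τ ⟨s, i⟩)) := by
    intro W
    have h2 : ∀ G : (∀ s : (Σ t : Fin P, Fin (e t)), Equiv.Perm (Fin (d s.1))),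
        (∏ s, ((Equiv.Perm.sign (G s) : ℤ) : Ω)) *
          ∏ p, (if (⟨p.1.1, (p.2, (G p.1) p.2)⟩ : GV d) =
            ⟨(χ (τ p).1).2 (τ p).2, (w (τ p).1 (τ p).2, W (τ p).1 (τ p).2)⟩
              then (1 : Ω) else 0) =
        (∏ p : (Σ s : (Σ t : Fin P, Fin (e t)), Fin (d s.1)),
          (if (⟨p.1.1, p.2⟩ : Let d) = ltp w (τ p) then (1 : Ω) else 0)) *
          ∏ s : (Σ t : Fin P, Fin (e t)), (((Equiv.Perm.sign (G s) : ℤ) : Ω) *
            ∏ i, (if ltp W (τ ⟨s, i⟩) = ⟨s.1, G s i⟩ then (1 : Ω) else 0)) := by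
      intro G
      have h3 : ∏ p : (Σ s : (Σ t : Fin P, Fin (e t)), Fin (d s.1)),
          (if ltp W (τ p) = (⟨p.1.1, G p.1 p.2⟩ : Let d) then (1 : Ω) else 0) =
          ∏ s : (Σ t : Fin P, Fin (e t)), ∏ i,
            (if ltp W (τ ⟨s, i⟩) = ⟨s.1, G s i⟩ then (1 : Ω) else 0) :=
        Fintype.prod_sigma (fun p : (Σ s : (Σ t : Fin P, Fin (e t)), Fin (d s.1)) =>
          (if ltp W (τ p) = (⟨p.1.1, G p.1 p.2⟩ : Let d) then (1 : Ω) else 0))
      rw [prod_mul_distrib, ← h3, mul_left_comm, ← prod_mul_distrib]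
      congr 1
      refine prod_congr rfl fun p _ => ?_
      exact L1.ite_gv _ _ _ _ _ _
    rw [sum_congr rfl fun G _ => h2 G, ← mul_sum]
    congr 1
    have h3 := Finset.prod_univ_sum (fun s : (Σ t : Fin P, Fin (e t)) =>
      (univ : Finset (Equiv.Perm (Fin (d s.1))))) (fun s π => (((Equiv.Perm.sign π : ℤ) : Ω) *
          ∏ i, (if ltp W (τ ⟨s, i⟩) = ⟨s.1, π i⟩ then (1 : Ω) else 0)))
    rw [Fintype.piFinset_univ] at h3
    rw [← h3]
    exact prod_congr rfl fun s _ => (L1.eps'_eq s.1 _).symm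
  simp only [h1]
  have h2 := hD I χ (Σ t : Fin P, Fin (e t)) Sigma.fst τ z hz hN
  unfold dform at h2
  calc ∑ W : ∀ r, Word d (χ r), (∏ r, z r (W r)) *
        ((∏ p : (Σ s : (Σ t : Fin P, Fin (e t)), Fin (d s.1)),
          (if (⟨p.1.1, p.2⟩ : Let d) = ltp w (τ p) then (1 : Ω) else 0)) *
          ∏ s : (Σ t : Fin P, Fin (e t)), eps' s.1 (fun i => ltp W (τ ⟨s, i⟩)))
      = (∏ p : (Σ s : (Σ t : Fin P, Fin (e t)), Fin (d s.1)),
          (if (⟨p.1.1, p.2⟩ : Let d) = ltp w (τ p) then (1 : Ω) else 0)) *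
        ∑ W : ∀ r, Word d (χ r), (∏ s : (Σ t : Fin P, Fin (e t)),
          eps' s.1 (fun i => ltp W (τ ⟨s, i⟩))) * ∏ r, z r (W r) := by
        rw [mul_sum]
        exact sum_congr rfl fun W _ => by ring
    _ = 0 := by
        rw [mul_eq_zero]
        right
        convert h2 using 1

end Pool.Agent.Helper11.Can
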