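import Mathlib
import Pool.Agent.Helper11.Can.Coh
import Pool.Agent.Helper65.Iso.TraceZero
import Pool.Agent.Helper28.CAN.C3

/-!
# CAN-C4: contractions of the tensors given by algebraic classes (MP_5f0950_ag)
-/

set_option autoImplicit false
set_option linter.unusedSectionVars false

universe u v w t

open CategoryTheory Finset

namespace Pool.Agent.Helper11.Can

open Pool.Agent.Helper10 hiding IsAlgAut parityPart
open SmProjVar SPre Pool.Agent.Helper10.GIT Pool.Agent.Helper11.Iso

namespace C4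

section gen

/-- a multiadditive map which vanishes on families of homogeneous elements is zero -/
lemma multi_zero {Ω : Type*} [AddCommGroup Ω] {I : Type*} [Fintype I] [DecidableEq I]
    {M : I → Type*} [∀ i, AddCommGroup (M i)] (F : (∀ i, M i) → Ω)
    (hF : ∀ x a y y', F (Function.update x a (y + y')) =
      F (Function.update x a y) + F (Function.update x a y'))
    (Hm : ∀ i, M i → Prop) (hdec : ∀ i y, ∃ a b, Hm i a ∧ Hm i b ∧ y = a + b)
    (h0 : ∀ x, (∀ i, Hm i (x i)) → F x = 0) (x : ∀ i, M i) : F x = 0 := by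
  have key : ∀ (s : Finset I) (x : ∀ i, M i), (∀ i ∉ s, Hm i (x i)) → F x = 0 := by
    intro s
    induction s using Finset.induction_on with
    | empty => exact fun x h => h0 x fun i => h i (Finset.notMem_empty i)
    | insert a s ha ih =>
      intro x hx
      obtain ⟨y, y', hy, hy', hyy⟩ := hdec a (x a)
      have h1 : ∀ y, Hm a y → F (Function.update x a y) = 0 := by
        intro y hy
        refine ih _ fun i hi => ?_
        by_cases hia : i = a
        · subst hia
          rw [Function.update_self]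
          exact hy
        · rw [Function.update_of_ne hia]
          exact hx i fun h => (Finset.mem_insert.mp h).elim hia hi
      have h2 := hF x a y y'
      rw [h1 y hy, h1 y' hy', add_zero, ← hyy, Function.update_eq_self] at h2
      exact h2
  exact key Finset.univ x fun i hi => absurd (Finset.mem_univ i) hi

/-- central factors can be collected on the left -/
lemma ofFn_mul_central {A : Type*} [Ring A] {s : ℕ} (a b : Fin s → A)
    (ha : ∀ i y, a i * y = y * a i) :
    (List.ofFn fun i => a i * b i).prod = (List.ofFn a).prod * (List.ofFn b).prod := by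
  induction s with
  | zero => simp
  | succ s ih =>
    rw [List.ofFn_succ, List.ofFn_succ, List.ofFn_succ, List.prod_cons, List.prod_cons,
      List.prod_cons, ih (fun i => a i.succ) (fun i => b i.succ) (fun i => ha i.succ)]
    have hc : (List.ofFn fun i => a (Fin.succ i)).prod * b 0 =
        b 0 * (List.ofFn fun i => a (Fin.succ i)).prod := by
      have : ∀ (l : List A), (∀ x ∈ l, ∀ y, x * y = y * x) → ∀ y, l.prod * y = y * l.prod := by
        intro l
        induction l with
        | nil => intro _ y; simp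
        | cons x l ih =>
          intro h y
          rw [List.prod_cons, mul_assoc, ih (fun z hz => h z (List.mem_cons_of_mem _ hz)),
            ← mul_assoc, h x List.mem_cons_self, mul_assoc]
      refine this _ (fun x hx => ?_) _
      obtain ⟨i, rfl⟩ := List.mem_ofFn.mp hx
      exact ha i.succ
    calc a 0 * b 0 * ((List.ofFn fun i => a (Fin.succ i)).prod *
          (List.ofFn fun i => b (Fin.succ i)).prod)
        = a 0 * (b 0 * (List.ofFn fun i => a (Fin.succ i)).prod) *
          (List.ofFn fun i => b (Fin.succ i)).prod := by noncomm_ring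
      _ = a 0 * (List.ofFn fun i => a (Fin.succ i)).prod *
          (b 0 * (List.ofFn fun i => b (Fin.succ i)).prod) := by rw [← hc]; noncomm_ring

end gen

section ent

variable {R : Type*} [CommRing R] {P : ℕ} {d : Fin P → ℕ}

lemma ent_self (c : Fin P) (M : Matrix (Fin (d c)) (Fin (d c)) R) (i j : Fin (d c)) :
    ent c M (⟨c, i⟩ : Let d) ⟨c, j⟩ = M i j := by
  classical
  unfold ent
  rw [Finset.sum_eq_single i, Finset.sum_eq_single j]
  · simp
  · intro b _ hb
    have : (⟨c, j⟩ : Let d) ≠ ⟨c, b⟩ := fun h => hb (by simpa using h.symm)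
    rw [if_neg this]
    ring
  · intro h; exact absurd (Finset.mem_univ _) h
  · intro b _ hb
    refine Finset.sum_eq_zero fun b' _ => ?_
    have : (⟨c, i⟩ : Let d) ≠ ⟨c, b⟩ := fun h => hb (by simpa using h.symm)
    rw [if_neg this]
    ring
  · intro h; exact absurd (Finset.mem_univ _) h

lemma ent_left {c c₀ : Fin P} (M : Matrix (Fin (d c)) (Fin (d c)) R) (h : c₀ ≠ c)
    (i : Fin (d c₀)) (l : Let d) : ent c M (⟨c₀, i⟩ : Let d) l = 0 := by
  unfold ent
  refine Finset.sum_eq_zero fun b _ => Finset.sum_eq_zero fun b' _ => ?_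
  have : (⟨c₀, i⟩ : Let d) ≠ ⟨c, b⟩ := fun h' => h (congrArg Sigma.fst h')
  rw [if_neg this]
  ring

lemma ent_right {c c₀ : Fin P} (M : Matrix (Fin (d c)) (Fin (d c)) R) (h : c₀ ≠ c)
    (i : Fin (d c₀)) (l : Let d) : ent c M l (⟨c₀, i⟩ : Let d) = 0 := by
  unfold ent
  refine Finset.sum_eq_zero fun b _ => Finset.sum_eq_zero fun b' _ => ?_
  have : (⟨c₀, i⟩ : Let d) ≠ ⟨c, b'⟩ := fun h' => h (congrArg Sigma.fst h')
  rw [if_neg this]
  ring

end ent

section coh

variable {k : Type u} [Field k] {K : Type t} [Field K] {Ω : Type v} [Field Ω] [Algebra K Ω]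
  {S : SPre.{u, v, w, t} k K Ω} {P : ℕ} {d : Fin P → ℕ} {V : Fin P → SmProjVar k}

/-- the factor of the product given by a pair of positions is algebraic -/
lemma alg_ent {e : ∀ c, Fin (d c) → S.H (V c)} {B : Mats d Ω}
    (he : ∀ c, Piece S (V c) (d c) (e c) (B c)) {T : SmProjVar k} (c c₀ c₁ : Fin P)
    (g₀ : T.toOver ⟶ (V c₀).toOver) (g₁ : T.toOver ⟶ (V c₁).toOver) :
    ∑ v : Fin (d c₀), ∑ v' : Fin (d c₁), ent c (B c) (⟨c₀, v⟩ : Let d) ⟨c₁, v'⟩ •
      (S.pull g₀ (e c₀ v) * S.pull g₁ (e c₁ v')) ∈ S.alg T := by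
  by_cases h0 : c₀ = c
  · by_cases h1 : c₁ = c
    · subst h0
      subst h1
      have h2 := S.pull_mem (SmProjVar.lift g₀ g₁) _ (he c₁).alg
      rw [map_sum (S.pull _)] at h2
      convert h2 using 1
      refine Finset.sum_congr rfl fun v _ => ?_
      rw [map_sum (S.pull _)]
      refine Finset.sum_congr rfl fun v' _ => ?_
      rw [ent_self, map_smul (S.pull _), SPre.ext, map_mul (S.pull _), pull_pull, pull_pull,
        lift_fst, lift_snd]
    · rw [Finset.sum_eq_zero]
      · exact Submodule.zero_mem _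
      · intro v _
        refine Finset.sum_eq_zero fun v' _ => ?_
        rw [ent_right _ h1, zero_smul]
  · rw [Finset.sum_eq_zero]
    · exact Submodule.zero_mem _
    · intro v _
      refine Finset.sum_eq_zero fun v' _ => ?_
      rw [ent_left _ h0, zero_smul]

/-- the product of algebraic classes, one of which is numerically trivial, is numerically
trivial -/
lemma rad_ofFn {Z : SmProjVar k} {m : ℕ} {x : Fin m → S.H Z} (hx : ∀ i, x i ∈ S.alg Z)
    (j : Fin m) (hj : S.rad Z (x j)) : S.rad Z (List.ofFn x).prod := by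
  induction m with
  | zero => exact j.elim0
  | succ m ih =>
    rw [List.ofFn_succ, List.prod_cons]
    refine Fin.cases (fun hj => ?_) (fun j hj => ?_) j hj
    · exact rad_mul hj (TZ.alg_ofFn fun i => hx i.succ)
    · rw [S.ev_comm _ _ _ (S.alg_le_ev _ (hx 0))]
      exact rad_mul (ih (fun i => hx i.succ) j hj) (hx 0)

/-- additivity of `ctens` -/
lemma ctens_add (e : ∀ c, Fin (d c) → S.H (V c)) {χ : Shape P} {T X : SmProjVar k}
    (p : T.toOver ⟶ X.toOver) (f : ∀ i : Fin χ.1, T.toOver ⟶ (V (χ.2 i)).toOver) (r : S.H T)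
    (x x' : S.H X) (w : Word d χ) :
    ctens S e p f r (x + x') w = ctens S e p f r x w + ctens S e p f r x' w := by
  unfold ctens
  rw [map_add (S.pull p), mul_add, add_mul, map_add]

open Classical in
/-- the homogeneous case -/
lemma hom_case {𝒳 : SmProjVar k → Prop} (h𝒳 : DClass S 𝒳) {e : ∀ c, Fin (d c) → S.H (V c)}
    {B : Mats d Ω} (he : ∀ c, Piece S (V c) (d c) (e c) (B c))
    (hprod : ∀ {s : ℕ} (T X : Fin (s + 1) → SmProjVar k), (∀ r, 𝒳 (X r)) →
      ∀ p : (∀ r, (T r).toOver ⟶ (X r).toOver),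
      ∃ (T' X' : SmProjVar k) (π : ∀ r, T'.toOver ⟶ (T r).toOver) (q : T'.toOver ⟶ X'.toOver),
        𝒳 X' ∧ (∀ y : ∀ r, S.H (T r),
          S.tr T' (List.ofFn fun r => S.pull (π r) (y r)).prod = ∏ r, S.tr (T r) (y r)) ∧
        ∀ x : ∀ r, S.H (X r), ∃ x' : S.H X',
          (List.ofFn fun r => S.pull (π r) (S.pull (p r) (x r))).prod = S.pull q x')
    (hreorder : ∀ (T : SmProjVar k) {I : Type} [Fintype I] {s : ℕ} (ε : Fin s ≃ I)
      {b : I → ℕ} {m : ℕ} (σ : Fin m × Fin 2 ≃ Σ r : I, Fin (b r))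
      (sg : I ⊕ (Σ r : I, Fin (b r)) → I ⊕ (Σ r : I, Fin (b r)) → ℤ),
      (∀ x y, sg x y = 1 ∨ sg x y = -1) →
      ∃ c : ℤ, (c = 1 ∨ c = -1) ∧ ∀ L : I ⊕ (Σ r : I, Fin (b r)) → S.H T,
        (∀ x y, L x * L y = sg x y • (L y * L x)) →
        (List.ofFn fun j : Fin s => L (.inl (ε j)) *
          (List.ofFn fun i : Fin (b (ε j)) => L (.inr ⟨ε j, i⟩)).prod).prod =
        c • ((List.ofFn fun j : Fin s => L (.inl (ε j))).prod *
          (List.ofFn fun x : Fin m => L (.inr (σ (x, 0))) * L (.inr (σ (x, 1)))).prod))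
    {I : Type} [Fintype I] {χ : I → Shape P} {J : Type} [Fintype J] (cl : J → Fin P)
    (σ : J × Fin 2 ≃ Pos χ) (T X : I → SmProjVar k) (hX : ∀ r, 𝒳 (X r))
    (p : ∀ r, (T r).toOver ⟶ (X r).toOver)
    (f : ∀ r, ∀ i : Fin (χ r).1, (T r).toOver ⟶ (V ((χ r).2 i)).toOver)
    (ρ : ∀ r, S.H (T r)) (hρ : ∀ r, ρ r ∈ S.alg (T r)) (r₀ : I) (hr₀ : S.rad (T r₀) (ρ r₀))
    (x : ∀ r, S.H (X r)) (hx : ∀ r, S.Hom (X r) (x r)) :
    pform B cl σ (fun r => ctens S e (p r) (f r) (ρ r) (x r)) = 0 := by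
  -- parities
  have hq : ∀ r, ∃ q : Bool, if q then x r ∈ S.od (X r) else x r ∈ S.ev (X r) := by
    intro r
    rcases hx r with h | h
    · exact ⟨false, by simpa using h⟩
    · exact ⟨true, by simpa using h⟩
  choose qx hqx using hq
  have hq : ∀ c, ∃ q : Bool, ∀ b, if q then e c b ∈ S.od (V c) else e c b ∈ S.ev (V c) := by
    intro c
    rcases (he c).parity with h | h
    · exact ⟨false, fun b => by simpa using h b⟩
    · exact ⟨true, fun b => by simpa using h b⟩
  choose qc hqc using hq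
  -- enumerations
  obtain ⟨s, hs⟩ : ∃ s, Fintype.card I = s + 1 :=
    ⟨Fintype.card I - 1, by have := Fintype.card_pos_iff.mpr ⟨r₀⟩; omega⟩
  let ε : Fin (s + 1) ≃ I := (Fintype.equivFinOfCardEq hs).symm
  let φ : Fin (Fintype.card J) ≃ J := (Fintype.equivFin J).symm
  obtain ⟨T', X', π₀, q, hX', htr, hext⟩ := hprod (fun j => T (ε j)) (fun j => X (ε j))
    (fun j => hX _) (fun j => p (ε j))
  obtain ⟨π, hπ⟩ : ∃ π : ∀ r, T'.toOver ⟶ (T r).toOver, ∀ j, π (ε j) = π₀ j :=
    ⟨Equiv.piCongrLeft (fun r => (T'.toOver ⟶ (T r).toOver)) ε π₀, fun j =>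
      Equiv.piCongrLeft_apply_apply _ _ _ _⟩
  obtain rfl : π₀ = fun j => π (ε j) := funext fun j => (hπ j).symm
  clear hπ
  have htr' : ∀ y : ∀ r, S.H (T r),
      ∏ r, S.tr (T r) (y r) = S.tr T' (List.ofFn fun j => S.pull (π (ε j)) (y (ε j))).prod := by
    intro y
    rw [htr (fun j => y (ε j)), Equiv.prod_comp ε (fun r => S.tr (T r) (y r))]
  obtain ⟨x', hx'⟩ := hext (fun j => x (ε j))
  -- reordering
  let σ' : Fin (Fintype.card J) × Fin 2 ≃ Pos χ := (φ.prodCongr (Equiv.refl _)).trans σ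
  let par : I ⊕ Pos χ → Bool := Sum.elim qx fun y => qc ((χ y.1).2 y.2)
  let sg : I ⊕ Pos χ → I ⊕ Pos χ → ℤ := fun y y' => if par y && par y' then -1 else 1
  obtain ⟨c, hc, hre⟩ := hreorder T' ε (b := fun r => (χ r).1) σ' sg (fun y y' => by
    by_cases h : (par y && par y') = true
    · exact .inr (if_pos h)
    · exact .inl (if_neg h))
  let L : (∀ r, Word d (χ r)) → I ⊕ Pos χ → S.H T' := fun W =>
    Sum.elim (fun r => S.pull (π r) (S.pull (p r) (x r)))
      fun y => S.pull (π y.1) (S.pull (f y.1 y.2) (e _ (W y.1 y.2)))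
  have hL : ∀ W y y', L W y * L W y' = sg y y' • (L W y' * L W y) := by
    intro W
    have hpar : ∀ y, if par y then L W y ∈ S.od T' else L W y ∈ S.ev T' := by
      rintro (r | y)
      · have h := hqx r
        change if qx r then _ else _
        cases hh : qx r with
        | false =>
          rw [hh] at h
          exact S.pull_ev _ _ (S.pull_ev _ _ (by simpa using h))
        | true =>
          rw [hh] at h
          exact S.pull_od _ _ (S.pull_od _ _ (by simpa using h))
      · have h := hqc ((χ y.1).2 y.2) (W y.1 y.2)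
        change if qc ((χ y.1).2 y.2) then _ else _
        cases hh : qc ((χ y.1).2 y.2) with
        | false =>
          rw [hh] at h
          exact S.pull_ev _ _ (S.pull_ev _ _ (by simpa using h))
        | true =>
          rw [hh] at h
          exact S.pull_od _ _ (S.pull_od _ _ (by simpa using h))
    intro y y'
    have h1 := hpar y
    have h2 := hpar y'
    change _ = (if par y && par y' then (-1 : ℤ) else 1) • _
    cases hy : par y with
    | false =>
      rw [hy] at h1
      rw [Bool.false_and, if_neg (by simp), one_smul]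
      exact S.ev_comm _ _ _ (by simpa using h1)
    | true =>
      rw [hy] at h1
      have h1' : L W y ∈ S.od T' := by simpa using h1
      cases hy' : par y' with
      | false =>
        rw [hy'] at h2
        rw [Bool.true_and, if_neg (by simp), one_smul]
        exact (S.ev_comm _ _ _ (by simpa using h2)).symm
      | true =>
        rw [hy'] at h2
        have h2' : L W y' ∈ S.od T' := by simpa using h2
        rw [Bool.true_and, if_pos rfl, neg_one_zsmul]
        exact S.od_anti _ _ _ h1' h2'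
  -- the coefficient
  set R : S.H T' := (List.ofFn fun j => S.pull (π (ε j)) (ρ (ε j))).prod with hR
  have hRrad : S.rad T' R := by
    refine rad_ofFn (fun j => S.pull_mem _ _ (hρ _)) (ε.symm r₀) ?_
    refine rad_pull _ ?_
    rw [ε.apply_symm_apply]
    exact hr₀
  have h1 : ∀ W : ∀ r, Word d (χ r), ∏ r, ctens S e (p r) (f r) (ρ r) (x r) (W r) =
      c • S.tr T' (R * S.pull q x' * (List.ofFn fun y : Fin (Fintype.card J) =>
        L W (.inr (σ' (y, 0))) * L W (.inr (σ' (y, 1)))).prod) := by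
    intro W
    have h2 : (List.ofFn fun j => S.pull (π (ε j)) (ρ (ε j) * S.pull (p (ε j)) (x (ε j)) *
        wd S e (f (ε j)) (W (ε j)))).prod = R * (c • (S.pull q x' *
        (List.ofFn fun y : Fin (Fintype.card J) =>
        L W (.inr (σ' (y, 0))) * L W (.inr (σ' (y, 1)))).prod)) := by
      have h4 := hre (L W) (hL W)
      have h5 : (List.ofFn fun j : Fin (s + 1) => L W (.inl (ε j))).prod = S.pull q x' := hx'
      rw [h5] at h4
      rw [← h4, hR, ← ofFn_mul_central]
      · congr 2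
        funext j
        rw [mul_assoc, map_mul (S.pull _), map_mul (S.pull _)]
        congr 2
        rw [wd, map_list_prod, List.map_ofFn]
        rfl
      · intro j y
        exact S.ev_comm _ _ _ (S.pull_ev _ _ (S.alg_le_ev _ (hρ _)))
    have h3 := htr' (fun r => ρ r * S.pull (p r) (x r) * wd S e (f r) (W r))
    rw [h2] at h3
    refine h3.trans ?_
    rw [mul_smul_comm, map_zsmul, mul_assoc]
  have h2 : pform B cl σ (fun r => ctens S e (p r) (f r) (ρ r) (x r)) =
      c • S.tr T' (R * S.pull q x' * ∑ W : ∀ r, Word d (χ r),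
        (∏ y : Fin (Fintype.card J), ent (cl (φ y)) (B (cl (φ y))) (ltp W (σ' (y, 0)))
          (ltp W (σ' (y, 1)))) •
        (List.ofFn fun y : Fin (Fintype.card J) =>
          L W (.inr (σ' (y, 0))) * L W (.inr (σ' (y, 1)))).prod) := by
    unfold pform
    rw [Finset.mul_sum, map_sum, Finset.smul_sum]
    refine Finset.sum_congr rfl fun W _ => ?_
    rw [h1 W, mul_smul_comm, mul_smul_comm, map_smul, smul_eq_mul]
    congr 2
    rw [← Equiv.prod_comp φ]
    rfl
  -- the sum over all words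
  let Λ : Pos χ → Let d → S.H T' := fun y l => S.pull (π y.1)
    (if h : l.1 = (χ y.1).2 y.2 then S.pull (f y.1 y.2) (e _ (h ▸ l.2)) else 0)
  have hΛ : ∀ (y : Pos χ) (v : Fin (d ((χ y.1).2 y.2))), Λ y ⟨_, v⟩ =
      S.pull (π y.1) (S.pull (f y.1 y.2) (e _ v)) := fun y v => by
    change S.pull (π y.1) (dite _ _ _) = _
    rw [dif_pos rfl]
  have h3 := sum_pairs (Ω := Ω) σ' (fun y l l' => ent (cl (φ y)) (B (cl (φ y))) l l') Λ
  have h4 : ∑ W : ∀ r, Word d (χ r),
        (∏ y : Fin (Fintype.card J), ent (cl (φ y)) (B (cl (φ y))) (ltp W (σ' (y, 0)))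
          (ltp W (σ' (y, 1)))) •
        (List.ofFn fun y : Fin (Fintype.card J) =>
          L W (.inr (σ' (y, 0))) * L W (.inr (σ' (y, 1)))).prod ∈ S.alg T' := by
    have h5 : ∑ W : ∀ r, Word d (χ r),
        (∏ y : Fin (Fintype.card J), ent (cl (φ y)) (B (cl (φ y))) (ltp W (σ' (y, 0)))
          (ltp W (σ' (y, 1)))) •
        (List.ofFn fun y : Fin (Fintype.card J) =>
          L W (.inr (σ' (y, 0))) * L W (.inr (σ' (y, 1)))).prod =
        ∑ W : ∀ r, Word d (χ r),
        (∏ y : Fin (Fintype.card J), ent (cl (φ y)) (B (cl (φ y))) (ltp W (σ' (y, 0)))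
          (ltp W (σ' (y, 1)))) •
        (List.ofFn fun y : Fin (Fintype.card J) =>
          Λ (σ' (y, 0)) (ltp W (σ' (y, 0))) * Λ (σ' (y, 1)) (ltp W (σ' (y, 1)))).prod := by
      refine Finset.sum_congr rfl fun W _ => ?_
      congr 3
      funext y
      have h6 : ∀ y : Pos χ, Λ y (ltp W y) = L W (.inr y) := fun y => hΛ y (W y.1 y.2)
      rw [h6, h6]
    rw [h5, h3]
    refine TZ.alg_ofFn fun y => ?_
    have h6 := alg_ent he (cl (φ y)) _ _ (π (σ' (y, 0)).1 ≫ f (σ' (y, 0)).1 (σ' (y, 0)).2)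
      (π (σ' (y, 1)).1 ≫ f (σ' (y, 1)).1 (σ' (y, 1)).2)
    convert h6 using 1
    refine Finset.sum_congr rfl fun v _ => Finset.sum_congr rfl fun v' _ => ?_
    rw [hΛ, hΛ, pull_pull, pull_pull]
  -- conclusion
  rw [h2]
  generalize (∑ W : ∀ r, Word d (χ r),
        (∏ y : Fin (Fintype.card J), ent (cl (φ y)) (B (cl (φ y))) (ltp W (σ' (y, 0)))
          (ltp W (σ' (y, 1)))) •
        (List.ofFn fun y : Fin (Fintype.card J) =>
          L W (.inr (σ' (y, 0))) * L W (.inr (σ' (y, 1)))).prod) = a at h4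
  have h5 : S.tr T' (R * S.pull q x' * a) = 0 := by
    rw [mul_assoc, ← S.ev_comm T' a _ (S.alg_le_ev _ h4), ← mul_assoc, ← S.tr_pushF,
      h𝒳.d X' hX' _ (pushF_rad q (rad_mul hRrad h4)), zero_mul, map_zero]
  rw [h5, smul_zero]

end coh

end C4

section coh

variable {k : Type u} [Field k] {K : Type t} [Field K] {Ω : Type v} [Field Ω] [Algebra K Ω]
  {S : SPre.{u, v, w, t} k K Ω} {P : ℕ} {d : Fin P → ℕ} {V : Fin P → SmProjVar k}

/-- CAN-C4: all contractions of the tensors given by algebraic classes, one of which is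
numerically trivial, vanish. -/
theorem pZero_fam {𝒳 : SmProjVar k → Prop} (h𝒳 : DClass S 𝒳) {e : ∀ c, Fin (d c) → S.H (V c)}
    {B : Mats d Ω} (he : ∀ c, Piece S (V c) (d c) (e c) (B c))
    (hprod : ∀ {s : ℕ} (T X : Fin (s + 1) → SmProjVar k), (∀ r, 𝒳 (X r)) →
      ∀ p : (∀ r, (T r).toOver ⟶ (X r).toOver),
      ∃ (T' X' : SmProjVar k) (π : ∀ r, T'.toOver ⟶ (T r).toOver) (q : T'.toOver ⟶ X'.toOver),
        𝒳 X' ∧ (∀ y : ∀ r, S.H (T r),
          S.tr T' (List.ofFn fun r => S.pull (π r) (y r)).prod = ∏ r, S.tr (T r) (y r)) ∧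
        ∀ x : ∀ r, S.H (X r), ∃ x' : S.H X',
          (List.ofFn fun r => S.pull (π r) (S.pull (p r) (x r))).prod = S.pull q x')
    (hreorder : ∀ (T : SmProjVar k) {I : Type} [Fintype I] {s : ℕ} (ε : Fin s ≃ I)
      {b : I → ℕ} {m : ℕ} (σ : Fin m × Fin 2 ≃ Σ r : I, Fin (b r))
      (sg : I ⊕ (Σ r : I, Fin (b r)) → I ⊕ (Σ r : I, Fin (b r)) → ℤ),
      (∀ x y, sg x y = 1 ∨ sg x y = -1) →
      ∃ c : ℤ, (c = 1 ∨ c = -1) ∧ ∀ L : I ⊕ (Σ r : I, Fin (b r)) → S.H T,
        (∀ x y, L x * L y = sg x y • (L y * L x)) →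
        (List.ofFn fun j : Fin s => L (.inl (ε j)) *
          (List.ofFn fun i : Fin (b (ε j)) => L (.inr ⟨ε j, i⟩)).prod).prod =
        c • ((List.ofFn fun j : Fin s => L (.inl (ε j))).prod *
          (List.ofFn fun x : Fin m => L (.inr (σ (x, 0))) * L (.inr (σ (x, 1)))).prod)) :
    PZero B (famA S e 𝒳) (famN S e 𝒳) := by
  classical
  intro I _ χ J _ cl σ z hzA hzN
  obtain ⟨r₀, hN⟩ := hzN
  have h1 : ∀ r, ∃ (T X : SmProjVar k) (p : T.toOver ⟶ X.toOver)
      (f : ∀ i : Fin (χ r).1, T.toOver ⟶ (V ((χ r).2 i)).toOver) (ρ : S.H T) (x : S.H X),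
      𝒳 X ∧ ρ ∈ S.alg T ∧ (r = r₀ → S.rad T ρ) ∧ z r = ctens S e p f ρ x := by
    intro r
    by_cases hr : r = r₀
    · subst hr
      obtain ⟨T, X, p, f, ρ, x, hX, hρ, hz⟩ := hN
      exact ⟨T, X, p, f, ρ, x, hX, hρ.1, fun _ => hρ, hz⟩
    · obtain ⟨T, X, p, f, ρ, x, hX, hρ, hz⟩ := hzA r
      exact ⟨T, X, p, f, ρ, x, hX, hρ, fun h => absurd h hr, hz⟩
  choose T X p f ρ x hX hρ hr₀ hz using h1
  obtain rfl : z = fun r => ctens S e (p r) (f r) (ρ r) (x r) := funext hz
  refine C4.multi_zero (fun x : ∀ r, S.H (X r) =>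
    pform B cl σ (fun r => ctens S e (p r) (f r) (ρ r) (x r))) (fun x a y y' => ?_)
    (fun r => S.Hom (X r)) (fun r y => ?_) (fun x hx => ?_) x
  · change pform B cl σ _ = pform B cl σ _ + pform B cl σ _
    unfold pform
    rw [← Finset.sum_add_distrib]
    refine Finset.sum_congr rfl fun W _ => ?_
    rw [← mul_add]
    congr 1
    have h2 : ∀ y : S.H (X a),
        ∏ r, ctens S e (p r) (f r) (ρ r) (Function.update x a y r) (W r) =
        ctens S e (p a) (f a) (ρ a) y (W a) *
          ∏ r ∈ Finset.univ.erase a, ctens S e (p r) (f r) (ρ r) (x r) (W r) := by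
      intro y
      rw [← Finset.mul_prod_erase Finset.univ _ (Finset.mem_univ a), Function.update_self]
      congr 1
      refine Finset.prod_congr rfl fun r hr => ?_
      rw [Function.update_of_ne (Finset.ne_of_mem_erase hr)]
    rw [h2, h2, h2, C4.ctens_add]
    ring
  · obtain ⟨a, ha, b, hb, hab⟩ := S.exists_decomp (X r) y
    exact ⟨a, b, .inl ha, .inr hb, hab.symm⟩
  · exact C4.hom_case h𝒳 he hprod hreorder cl σ T X hX p f ρ hρ r₀ (hr₀ r₀ rfl) x hx

end coh

end Pool.Agent.Helper11.Can
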